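import Pool.Agent.BEN.StmtsB
import Pool.Agent.BEL.StmtsP
import Pool.Agent.Helper91_BE01.EMB
import Pool.Agent.Helper33_BEL.SOB

/-!
# Squad BEN, row SBU (helper3): the uniform Sobolev inequality
-/

set_option autoImplicit false

namespace Pool.Agent.BEN.H3

open Set Filter Topology MeasureTheory
open scoped InnerProductSpace ENNReal
open Pool.Agent.BE01 Pool.Agent.BEL
open Pool.Agent.BE01.H91 (TT ge ge_dense gr gr_ae tst_grad_memLp)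

noncomputable section

lemma tst_mono {d : ℕ} {Ω Ω' : Set (En d)} (h : Ω' ⊆ Ω) {ψ : En d → ℝ} (hψ : Tst Ω' ψ) :
    Tst Ω ψ := ⟨hψ.1, hψ.2.1, hψ.2.2.trans h⟩

lemma grad_restrict {d : ℕ} {Ω : Set (En d)} {ψ : En d → ℝ} (hψ : Tst Ω ψ) (p : ℝ≥0∞) :
    eLpNorm (gradient ψ) p (mu Ω) = eLpNorm (gradient ψ) p volume := by
  rw [mu]
  refine eLpNorm_restrict_eq_of_support_subset ?_
  intro x hx
  refine hψ.2.2 ?_
  by_contra hc
  refine hx ?_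
  have h1 : fderiv ℝ ψ x = 0 := by
    have h2 : x ∉ tsupport (fderiv ℝ ψ) := fun h3 => hc (tsupport_fderiv_subset ℝ h3)
    exact image_eq_zero_of_notMem_tsupport h2
  rw [gradient, h1, map_zero]

lemma sob_all {d : ℕ} {Ω : Set (En d)} {p : ℝ} (hd : 0 < d) (hΩ : Dom Ω) (hp : 2 ≤ p)
    (hdp : ((d : ℝ) - 2) * p ≤ 2 * d) : ∃ C : ℝ, 0 < C ∧ ∀ Ω' : Set (En d), Ω' ⊆ Ω →
    ∀ ψ, Tst Ω' ψ →
    eLpNorm ψ (ENNReal.ofReal p) (mu Ω') ≤ ENNReal.ofReal C * eLpNorm (gradient ψ) 2 (mu Ω') := by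
  obtain ⟨C, hC, hS⟩ := Pool.Agent.BEL.H33.sob d Ω p hd hΩ hp hdp
  refine ⟨C, hC, fun Ω' hs ψ hψ => ?_⟩
  have h1 : Tst Ω ψ := tst_mono hs hψ
  rw [grad_restrict hψ, ← grad_restrict h1]
  refine le_trans ?_ (hS ψ h1)
  exact eLpNorm_mono_measure ψ (Measure.restrict_mono hs le_rfl)

theorem sbu : SbuStmt := by
  intro d Ω hd hΩ
  have hd2 : (2 : ℝ) ≤ (d : ℝ) := by exact_mod_cast hd
  have hpos : (0 : ℝ) < 4 * (d : ℝ) - 5 := by linarith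
  have hp : (2 : ℝ) ≤ pS d := by
    rw [pS, le_div_iff₀ hpos]
    linarith
  have hdp : ((d : ℝ) - 2) * pS d ≤ 2 * d := by
    rw [pS, ← mul_div_assoc, div_le_iff₀ hpos]
    nlinarith
  obtain ⟨C, hC, hS⟩ := sob_all (Ω := Ω) (p := pS d) (by omega) hΩ hp hdp
  refine ⟨C, hC, fun Ω' hΩ' hs ι hι G => ?_⟩
  have hb : ∀ ψ : TT Ω', eLpNorm (ι (ge Ω' ψ)) (ENNReal.ofReal (pS d)) (mu Ω') ≤
      ENNReal.ofReal (C * ‖ge Ω' ψ‖) := by
    intro ψ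
    have h1 : ι (ge Ω' ψ) =ᵐ[mu Ω'] ψ.1 := hι ψ.1 ψ.2 (ge Ω' ψ) (gr_ae Ω' ψ)
    rw [eLpNorm_congr_ae h1, ENNReal.ofReal_mul hC.le]
    refine (hS Ω' hs ψ.1 ψ.2).trans (mul_le_mul_right ?_ _)
    have h2 : ‖ge Ω' ψ‖ = ‖(tst_grad_memLp ψ.2 2).toLp (gradient ψ.1)‖ := rfl
    rw [h2, Lp.norm_toLp, ENNReal.ofReal_toReal (tst_grad_memLp ψ.2 2).eLpNorm_ne_top]
  have hG : G ∈ closure (range (ge Ω')) := ge_dense Ω' G
  obtain ⟨y, hy, hyG⟩ := mem_closure_iff_seq_limit.1 hG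
  choose x hx using hy
  have hιy : Tendsto (fun n => ι (y n)) atTop (𝓝 (ι G)) := (ι.continuous.tendsto G).comp hyG
  obtain ⟨ns, hns, hae⟩ := (tendstoInMeasure_of_tendsto_Lp hιy).exists_seq_tendsto_ae
  have h1 := Lp.eLpNorm_lim_le_liminf_eLpNorm (p := ENNReal.ofReal (pS d))
    (fun n => Lp.aestronglyMeasurable (ι (y (ns n)))) _ hae
  refine h1.trans ?_
  have h2 : Tendsto (fun n => ENNReal.ofReal (C * ‖y (ns n)‖)) atTop
      (𝓝 (ENNReal.ofReal (C * ‖G‖))) := by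
    refine (ENNReal.continuous_ofReal.tendsto _).comp ?_
    exact ((hyG.norm.const_mul C).comp hns.tendsto_atTop)
  rw [← h2.liminf_eq]
  refine liminf_le_liminf (Eventually.of_forall fun n => ?_)
  show eLpNorm (ι (y (ns n))) (ENNReal.ofReal (pS d)) (mu Ω') ≤ _
  rw [← hx (ns n)]
  exact hb (x (ns n))

end

end Pool.Agent.BEN.H3
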